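import Pool.Agent.helper56.NR.Spec

/-!
# CHA: the chain theorem

Project nr: (MP_af9036_an), see `Pool.Agent.helper56.NR.Spec`.
-/

set_option autoImplicit false

open Complex Metric Set Filter Topology MeasureTheory Pool.Agent.helper98.ILF

open EX (ff)

noncomputable section

namespace NR

/-- the derivative of a branch does not vanish. -/
theorem CHA_deriv_ne {n : ℕ} {c : ℂ} {m : ℕ} {y : ℂ} {r : ℝ} {G : ℂ → ℂ} (h : Brc n c m y r G)
    {w : ℂ} (hw : w ∈ ball y r) : deriv G w ≠ 0 := by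
  have hG : DifferentiableAt ℂ G w := h.1.differentiableAt (isOpen_ball.mem_nhds hw)
  have hF : DifferentiableAt ℂ ((ff n c)^[m]) (G w) := (ffi_diff n c m) (G w)
  have h1 : HasDerivAt (fun z => (ff n c)^[m] (G z)) (deriv ((ff n c)^[m]) (G w) * deriv G w) w :=
    hF.hasDerivAt.comp w hG.hasDerivAt
  have h2 : HasDerivAt (fun z => (ff n c)^[m] (G z)) 1 w := by
    have h3 : (fun z => (ff n c)^[m] (G z)) =ᶠ[𝓝 w] id := by
      filter_upwards [isOpen_ball.mem_nhds hw] with z hz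
      exact h.2 z hz
    exact (hasDerivAt_id w).congr_of_eventuallyEq h3
  have h4 := h1.unique h2
  intro h5
  rw [h5, mul_zero] at h4
  exact zero_ne_one h4

/-- the numbers `mm` of a chain decrease. -/
theorem CHA_mm_lt {n : ℕ} {c : ℂ} {N : ℕ} {mm : ℕ → ℕ} {l l' : ℕ → ℝ} {G g : ℕ → ℂ → ℂ}
    (hC : Chn n c N mm l l' G g) : ∀ k i : ℕ, i < k → k ≤ N → mm k < mm i := by
  intro k
  induction k with
  | zero => intro i hi; omega
  | succ k ih =>
    intro i hi hk
    have h1 := hC.lt k (by omega)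
    rcases Nat.lt_succ_iff_lt_or_eq.1 hi with h2 | h2
    · exact h1.trans (ih i h2 (by omega))
    · rw [h2]; exact h1

/-- the triangle inequality along the chain. -/
theorem CHA_tri {n : ℕ} {c : ℂ} {N : ℕ} {mm : ℕ → ℕ} {l l' : ℕ → ℝ} {G g : ℕ → ℂ → ℂ}
    (hC : Chn n c N mm l l' G g) (y : ℂ) : ∀ k : ℕ, k ≤ N →
    ‖vv n c (mm k) - y‖ ≤ ‖vv n c (mm 0) - y‖ + ∑ m ∈ Finset.range k, l m := by
  intro k
  induction k with
  | zero => intro _; simp
  | succ k ih =>
    intro hk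
    have h1 := ih (by omega)
    have h2 := hC.dist k (by omega)
    rw [Finset.sum_range_succ]
    have h3 : vv n c (mm (k + 1)) - y
        = (vv n c (mm (k + 1)) - vv n c (mm k)) + (vv n c (mm k) - y) := by ring
    have h4 := norm_add_le (vv n c (mm (k + 1)) - vv n c (mm k)) (vv n c (mm k) - y)
    rw [← h3, h2] at h4
    linarith

/-- comparison of `N`-th roots. -/
theorem CHA_root {N : ℕ} (hN : 1 ≤ N) {x y : ℝ} (hy : 0 ≤ y) (h : x ^ N ≤ y ^ N) :
    x ≤ y := by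
  by_contra hcon
  push Not at hcon
  have h1 : y ^ N < x ^ N := pow_lt_pow_left₀ hcon hy (by omega)
  linarith

theorem CHA (hXF : XF_stmt) (hQD : QD_stmt) (hCEX : CEX_stmt) (hCON : CON_stmt)
    (hCO0 : CO0_stmt) : CHA_stmt := by
  obtain ⟨C₁, N₁, hC₁, hN₁, hQ⟩ := hQD
  have h8 : (1 : ℝ) ≤ 8 ^ N₁ := one_le_pow₀ (by norm_num)
  have h8' : (0 : ℝ) < 8 ^ N₁ := by positivity
  have hC₁0 : 0 < C₁ := by linarith
  refine ⟨8 ^ N₁ * C₁, by nlinarith, ?_⟩
  intro n c y ρ B η m₀ h hn hρ hB hη hv hh hm₀ hhc hlow hcy hyp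
  obtain ⟨N, mm, l, l', G, g, hmm0, hCh⟩ := hCEX n c m₀ hn hv
  have he0 : ‖vv n c (mm 0) - y‖ < ρ := by
    rw [hmm0]
    exact mem_ball_iff_norm.1 hm₀
  -- the length of the chain is positive
  have hN : 1 ≤ N := by
    by_contra hcon
    have h0 : N = 0 := by omega
    have h1 := hCh.last
    rw [h0] at h1
    rw [h1, vv_zero] at he0
    linarith
  -- the index K
  have hex : ∃ k, 4 / 5 * ρ ≤ l k ∨ 9 / 5 * ρ ≤ ‖vv n c (mm (k + 1)) - y‖ := by
    refine ⟨N - 1, Or.inr ?_⟩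
    rw [Nat.sub_add_cancel hN, hCh.last, vv_zero]
    exact hcy
  classical
  obtain ⟨K, hKdef⟩ : ∃ K, K = Nat.find hex := ⟨_, rfl⟩
  have hKP : 4 / 5 * ρ ≤ l K ∨ 9 / 5 * ρ ≤ ‖vv n c (mm (K + 1)) - y‖ := by
    rw [hKdef]; exact Nat.find_spec hex
  have hKmin : ∀ k < K, l k < 4 / 5 * ρ ∧ ‖vv n c (mm (k + 1)) - y‖ < 9 / 5 * ρ := by
    intro k hk
    rw [hKdef] at hk
    have h1 := Nat.find_min hex hk
    push Not at h1
    exact h1
  have hKN : K < N := by
    have h1 : K ≤ N - 1 := by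
      rw [hKdef]
      refine Nat.find_min' hex (Or.inr ?_)
      rw [Nat.sub_add_cancel hN, hCh.last, vv_zero]
      exact hcy
    omega
  have hey : ∀ k ≤ K, ‖vv n c (mm k) - y‖ < 9 / 5 * ρ := by
    intro k hk
    rcases Nat.eq_zero_or_pos k with h0 | h0
    · rw [h0]; linarith
    · have h1 := (hKmin (k - 1) (by omega)).2
      rwa [Nat.sub_add_cancel h0] at h1
  have hmm1 : ∀ k ≤ K, 1 ≤ mm k := by
    intro k hk
    have h1 := hCh.lt k (by omega)
    omega
  have hmmle : ∀ k ≤ K, mm k ≤ m₀ := by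
    intro k hk
    rcases Nat.eq_zero_or_pos k with h0 | h0
    · rw [h0, hmm0]
    · have h1 := CHA_mm_lt hCh k 0 h0 (by omega)
      omega
  -- the truncated radii
  obtain ⟨lam, hlam⟩ : ∃ lam : ℕ → ℝ, ∀ k, lam k = min (l k) (4 / 5 * ρ) := ⟨_, fun _ => rfl⟩
  have hlaml : ∀ k, lam k ≤ l k := fun k => by rw [hlam]; exact min_le_left _ _
  have hlamr : ∀ k, lam k ≤ 4 / 5 * ρ := fun k => by rw [hlam]; exact min_le_right _ _
  have hlameq : ∀ k < K, lam k = l k := fun k hk => by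
    rw [hlam]; exact min_eq_left (hKmin k hk).1.le
  have hlampos : ∀ k ≤ K, 0 < lam k := fun k hk => by
    rw [hlam]; exact lt_min (hCh.pos k (by omega)) (by positivity)
  have hbrl : ∀ k ≤ K, Brc n c (mm k) (vv n c (mm k)) (lam k) (G k) := fun k hk =>
    (hCh.br k (by omega)).mono (ball_subset_ball (hlaml k))
  -- the numbers b
  obtain ⟨b, hb⟩ : ∃ b : ℕ → ℝ, ∀ k, b k = lam k * ‖deriv (G k) (vv n c (mm k))‖ :=
    ⟨_, fun _ => rfl⟩
  have hbpos : ∀ k ≤ K, 0 < b k := by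
    intro k hk
    rw [hb]
    exact mul_pos (hlampos k hk)
      (norm_pos_iff.2 (CHA_deriv_ne (hbrl k hk) (mem_ball_self (hlampos k hk))))
  have hbh : ∀ k ≤ K, b k ≤ B ∧ ∀ s, 1 ≤ s → s ≤ mm k → 8 ^ N₁ * C₁ * b k ≤ ‖vv n c s - c‖ := by
    intro k hk
    rw [hb]
    exact hyp (mm k) (lam k) (G k) (hmm1 k hk) (hmmle k hk) (hey k hk) (hlampos k hk) (hlamr k)
      (hbrl k hk) (hCh.ce k (by omega))
  -- roots
  have hN₁' : (N₁ : ℕ) ≠ 0 := by omega
  obtain ⟨rt, hrt⟩ : ∃ rt : ℝ → ℝ, ∀ x, rt x = x ^ ((N₁ : ℝ)⁻¹) := ⟨_, fun _ => rfl⟩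
  have hrtpow : ∀ x, 0 ≤ x → rt x ^ N₁ = x := by
    intro x hx
    rw [hrt]
    exact Real.rpow_inv_natCast_pow hx hN₁'
  have hrt0 : ∀ x, 0 ≤ x → 0 ≤ rt x := by
    intro x hx
    rw [hrt]
    exact Real.rpow_nonneg hx _
  have hrtpos : ∀ x, 0 < x → 0 < rt x := by
    intro x hx
    rw [hrt]
    exact Real.rpow_pos_of_pos hx _
  have hrtmono : ∀ x x', 0 ≤ x → x ≤ x' → rt x ≤ rt x' := by
    intro x x' hx hxx
    rw [hrt, hrt]
    exact Real.rpow_le_rpow hx hxx (by positivity)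
  -- sums of lam and l
  have hsumIoo : ∀ i k, k ≤ K → ∑ m ∈ Finset.Ioo i k, lam m = ∑ m ∈ Finset.Ioo i k, l m := by
    intro i k hk
    refine Finset.sum_congr rfl fun m hm => hlameq m ?_
    have := (Finset.mem_Ioo.1 hm).2
    omega
  have hsumr : ∀ k, k ≤ K → ∑ m ∈ Finset.range k, lam m = ∑ m ∈ Finset.range k, l m := by
    intro k hk
    refine Finset.sum_congr rfl fun m hm => hlameq m ?_
    have := Finset.mem_range.1 hm
    omega
  -- (Q)
  have hQc : Qc 8 K lam (fun k => rt (b k)) := by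
    intro i k hik hk hsum
    have hsum' := hsum
    rw [hsumIoo i k hk] at hsum'
    have hlk := hlaml k
    have hli := hlameq i (by omega)
    have hpi := hlampos i (by omega)
    have hpk := hlampos k hk
    obtain ⟨hc1, hc2⟩ := hCON n c N mm l l' G g hCh i k hik (by omega) (by linarith)
    have hmk : mm k < mm i := CHA_mm_lt hCh k i hik (by omega)
    have hB1 := hbrl k hk
    have hB2 : Brc n c (mm k) (vv n c (mm i)) (l i)
        (fun w => (ff n c)^[mm i - mm k] (G i w)) := (hCh.br i (by omega)).comp hmk.le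
    have hq := hQ (G k) (fun w => (ff n c)^[mm i - mm k] (G i w)) (vv n c (mm k)) (vv n c (mm i))
      (vv n c (mm (i + 1))) (lam k) (l i) hpk (by linarith) hB1.1 hB1.inj hB2.1 hB2.inj
      (by
        intro w hw
        have hw1 : w ∈ ball (vv n c (mm i)) (l i) ∩ ball (vv n c (mm k)) (l k) :=
          ⟨hw.2, ball_subset_ball hlk hw.1⟩
        exact (hc2 w hw1).symm)
      (hc1.trans hsum') (le_of_eq (hCh.dist i (by omega)))
    have hv1 : (ff n c)^[mm i - mm k] (G i (vv n c (mm i))) = vv n c (mm i - mm k) := by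
      rw [hCh.ce i (by omega)]
      rfl
    have hv2 : G k (vv n c (mm k)) = c := hCh.ce k (by omega)
    have hq' : ‖vv n c (mm i - mm k) - c‖ ≤ C₁ * b k * (max 1 (lam i / lam k)) ^ N₁ := by
      rw [hb k, hli]
      have h1 := hq
      rw [hv1, hv2] at h1
      exact h1
    have hlo := (hbh i (by omega)).2 (mm i - mm k) (by omega) (by omega)
    have hX : 8 ^ N₁ * b i ≤ b k * (max 1 (lam i / lam k)) ^ N₁ := by
      have h1 : C₁ * (8 ^ N₁ * b i) ≤ C₁ * (b k * (max 1 (lam i / lam k)) ^ N₁) := by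
        calc C₁ * (8 ^ N₁ * b i) = 8 ^ N₁ * C₁ * b i := by ring
          _ ≤ C₁ * b k * (max 1 (lam i / lam k)) ^ N₁ := hlo.trans hq'
          _ = C₁ * (b k * (max 1 (lam i / lam k)) ^ N₁) := by ring
      exact le_of_mul_le_mul_left h1 hC₁0
    have hbi := hbpos i (by omega)
    have hbk := hbpos k hk
    have hXpos : 0 < max 1 (lam i / lam k) := lt_of_lt_of_le one_pos (le_max_left _ _)
    have hY : 8 * rt (b i) ≤ rt (b k) * max 1 (lam i / lam k) := by
      apply CHA_root hN₁ (mul_nonneg (hrt0 _ hbk.le) hXpos.le)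
      rw [mul_pow, mul_pow, hrtpow _ hbi.le, hrtpow _ hbk.le]
      exact hX
    show 8 * min 1 (lam k / lam i) * rt (b i) ≤ rt (b k)
    have hmin : 0 < min 1 (lam k / lam i) := lt_min one_pos (div_pos hpk hpi)
    have hmm : min 1 (lam k / lam i) * max 1 (lam i / lam k) ≤ 1 := by
      rcases le_total (lam i) (lam k) with h1 | h1
      · have h2 : lam i / lam k ≤ 1 := by rw [div_le_one hpk]; exact h1
        rw [max_eq_left h2, mul_one]
        exact min_le_left _ _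
      · have h2 : lam k / lam i ≤ 1 := by rw [div_le_one hpi]; exact h1
        have h3 : 1 ≤ lam i / lam k := by rw [one_le_div hpk]; exact h1
        rw [max_eq_right h3, min_eq_right h2, div_mul_div_cancel₀ hpi.ne', div_self hpk.ne']
    calc 8 * min 1 (lam k / lam i) * rt (b i)
        = min 1 (lam k / lam i) * (8 * rt (b i)) := by ring
      _ ≤ min 1 (lam k / lam i) * (rt (b k) * max 1 (lam i / lam k)) :=
          mul_le_mul_of_nonneg_left hY hmin.le
      _ = rt (b k) * (min 1 (lam k / lam i) * max 1 (lam i / lam k)) := by ring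
      _ ≤ rt (b k) * 1 := mul_le_mul_of_nonneg_left hmm (hrt0 _ hbk.le)
      _ = rt (b k) := mul_one _
  -- (R0)
  have hR0 : ∀ k ≤ K, ∑ m ∈ Finset.range k, lam m ≤ lam k / 2 →
      lam k ≤ ρ * rt (C₁ / η) * rt (b k) := by
    intro k hk hsum
    have hsum' := hsum
    rw [hsumr k hk] at hsum'
    have hlk := hlaml k
    have hpk := hlampos k hk
    have hbk := hbpos k hk
    have hh' : Brc n c (mm 0) y ρ h := by rw [hmm0]; exact hh
    obtain ⟨hc1, hc2⟩ := hCO0 n c N mm l l' G g y ρ h hCh hh' (by rw [hmm0]; exact hm₀)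
      (by rw [hmm0]; exact hhc) k (by omega) (by linarith)
    have hmk : mm k ≤ mm 0 := by rw [hmm0]; exact hmmle k hk
    have hB1 := hbrl k hk
    have hB2 : Brc n c (mm k) y ρ (fun w => (ff n c)^[mm 0 - mm k] (h w)) := hh'.comp hmk
    have hq := hQ (G k) (fun w => (ff n c)^[mm 0 - mm k] (h w)) (vv n c (mm k)) y
      (vv n c (mm 0)) (lam k) ρ hpk hρ hB1.1 hB1.inj hB2.1 hB2.inj
      (by
        intro w hw
        have hw1 : w ∈ ball y ρ ∩ ball (vv n c (mm k)) (l k) :=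
          ⟨hw.2, ball_subset_ball hlk hw.1⟩
        exact (hc2 w hw1).symm)
      (hc1.trans hsum') he0.le
    have hv2 : G k (vv n c (mm k)) = c := hCh.ce k (by omega)
    have hq' : ‖(ff n c)^[mm 0 - mm k] (h y) - c‖ ≤ C₁ * b k * (ρ / lam k) ^ N₁ := by
      have h1 := hq
      have h3 : 1 ≤ ρ / lam k := by
        rw [one_le_div hpk]
        have := hlamr k
        linarith
      rw [hv2, max_eq_right h3, ← hb k] at h1
      exact h1
    have hlo := hlow (mm 0 - mm k) (by omega)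
    have hE : η * lam k ^ N₁ ≤ C₁ * b k * ρ ^ N₁ := by
      have h1 : η ≤ C₁ * b k * (ρ / lam k) ^ N₁ := hlo.trans hq'
      rw [div_pow, ← mul_div_assoc, le_div_iff₀ (pow_pos hpk _)] at h1
      exact h1
    have hdiv : 0 < C₁ / η := div_pos hC₁0 hη
    apply CHA_root hN₁ (mul_nonneg (mul_nonneg hρ.le (hrt0 _ hdiv.le)) (hrt0 _ hbk.le))
    rw [mul_pow, mul_pow, hrtpow _ hbk.le, hrtpow _ hdiv.le]
    have h2 : lam k ^ N₁ ≤ C₁ * b k * ρ ^ N₁ / η := by
      rw [le_div_iff₀ hη]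
      linarith
    calc lam k ^ N₁ ≤ C₁ * b k * ρ ^ N₁ / η := h2
      _ = ρ ^ N₁ * (C₁ / η) * b k := by ring
  -- the combinatorial lemma
  have hdiv : 0 < C₁ / η := div_pos hC₁0 hη
  have hXF' := hXF 8 K lam (fun k => rt (b k)) (ρ * rt (C₁ / η)) (rt B) (le_refl _)
    (fun k hk => ⟨hlampos k hk, hrtpos _ (hbpos k hk)⟩) hQc
    (mul_nonneg hρ.le (hrt0 _ hdiv.le))
    (fun k hk => hrtmono _ _ (hbpos k hk).le (hbh k hk).1) hR0
  -- the lower bound of the sum
  have hsumlow : 4 / 5 * ρ ≤ ∑ m ∈ Finset.range (K + 1), lam m := by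
    have hnn : 0 ≤ ∑ m ∈ Finset.range K, lam m :=
      Finset.sum_nonneg fun m hm => (hlampos m (by have := Finset.mem_range.1 hm; omega)).le
    rcases le_or_gt (4 / 5 * ρ) (l K) with h1 | h1
    · rw [Finset.sum_range_succ]
      have h2 : lam K = 4 / 5 * ρ := by rw [hlam]; exact min_eq_right h1
      linarith
    · have h2 : 9 / 5 * ρ ≤ ‖vv n c (mm (K + 1)) - y‖ := by
        rcases hKP with h3 | h3
        · linarith
        · exact h3
      have h3 := CHA_tri hCh y (K + 1) (by omega)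
      have h4 : ∑ m ∈ Finset.range (K + 1), lam m = ∑ m ∈ Finset.range (K + 1), l m := by
        rw [Finset.sum_range_succ, Finset.sum_range_succ, hsumr K le_rfl]
        congr 1
        rw [hlam]
        exact min_eq_left h1.le
      rw [h4]
      linarith
  -- conclusion
  have hfin : 2 / 5 ≤ rt (C₁ / η) * rt B := by
    have h1 : 4 / 5 * ρ ≤ 2 * (ρ * rt (C₁ / η)) * rt B := hsumlow.trans hXF'
    have h2 : ρ * (2 / 5) ≤ ρ * (rt (C₁ / η) * rt B) := by nlinarith
    exact le_of_mul_le_mul_left h2 hρ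
  have hfin2 : (2 / 5 : ℝ) ^ N₁ ≤ C₁ / η * B := by
    calc (2 / 5 : ℝ) ^ N₁ ≤ (rt (C₁ / η) * rt B) ^ N₁ :=
          pow_le_pow_left₀ (by norm_num) hfin _
      _ = C₁ / η * B := by rw [mul_pow, hrtpow _ hdiv.le, hrtpow _ hB.le]
  have h25 : (1 : ℝ) ≤ 8 ^ N₁ * (2 / 5 : ℝ) ^ N₁ := by
    rw [← mul_pow]
    exact one_le_pow₀ (by norm_num)
  have h3 : 8 ^ N₁ * (2 / 5 : ℝ) ^ N₁ ≤ 8 ^ N₁ * (C₁ / η * B) :=
    mul_le_mul_of_nonneg_left hfin2 h8'.le
  have h4 : 1 ≤ 8 ^ N₁ * (C₁ / η * B) := h25.trans h3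
  have h5 : 8 ^ N₁ * (C₁ / η * B) = 8 ^ N₁ * C₁ * B / η := by ring
  rw [h5, one_le_div hη] at h4
  exact h4

end NR
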